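import Pool.Agent.P8H18.PS.Stm
import Pool.Agent.H373R2.T7.LamZ2

set_option autoImplicit false

/-! Project PS: the assembly. -/

namespace Pool.Agent.P8H18.PS

open Finset Filter

lemma prod_split {s : ℕ} (j : Fin s) (a b c : Fin s → ℝ) :
    ∏ i, (if i < j then a i else if i = j then b i else c i) =
      b j * (∏ i ∈ univ.filter (fun i => i < j), a i) * ∏ i ∈ univ.filter (fun i => j < i), c i := by
  rw [← Finset.mul_prod_erase univ _ (mem_univ j)]
  simp only [lt_irrefl, if_false, if_true]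
  rw [mul_assoc]
  congr 1
  rw [← Finset.prod_filter_mul_prod_filter_not (univ.erase j) (fun i => i < j)]
  congr 1
  · apply prod_congr
    · ext i
      simp only [mem_filter, mem_erase, mem_univ, and_true, true_and]
      constructor
      · exact fun h => h.2
      · exact fun h => ⟨h.ne, h⟩
    · intro i hi
      rw [if_pos (mem_filter.1 hi).2]
  · apply prod_congr
    · ext i
      simp only [mem_filter, mem_erase, mem_univ, and_true, true_and, not_lt]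
      constructor
      · exact fun h => lt_of_le_of_ne h.2 (Ne.symm h.1)
      · exact fun h => ⟨h.ne', h.le⟩
    · intro i hi
      have h1 := (mem_filter.1 hi).2
      rw [if_neg (not_lt.2 h1.le), if_neg h1.ne']

/-- telescoping -/
lemma tele {s : ℕ} (a b : Fin s → ℝ) :
    ∏ i, a i - ∏ i, b i = ∑ j, ∏ i, (if i < j then a i else if i = j then a i - b i else b i) := by
  have h := Finset.prod_add_ordered (univ : Finset (Fin s)) b (fun i => a i - b i)
  have e : ∀ i, b i + (a i - b i) = a i := fun i => by ring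
  simp only [e] at h
  rw [h, add_sub_cancel_left]
  apply sum_congr rfl
  intro j _
  rw [prod_split]

/-- the components -/
noncomputable def AA {s : ℕ} (z : ℕ) (j i : Fin s) (v n : ℕ) : ℝ :=
  if i < j then ArithmeticFunction.vonMangoldt (v + n) else
    if i = j then ArithmeticFunction.vonMangoldt (v + n) - lamz z (v + n) else lamz z (v + n)

lemma lamz_nonneg (z n : ℕ) : 0 ≤ lamz z n := Pool.Agent.H373R2.T7.lamz_nonneg z n

lemma lamz_le (z n : ℕ) : lamz z n ≤ (Vz z)⁻¹ := by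
  have h : 0 < Vz z := Pool.Agent.H373R2.T7.Vz_pos z
  unfold lamz
  split_ifs
  · exact le_rfl
  · positivity

lemma AA_le {s : ℕ} (z : ℕ) (j i : Fin s) (v n N : ℕ) (hN : 2 ≤ N) (hv : v < N) (hn1 : 1 ≤ n) (hn : n ≤ N)
    (hV : (Vz z)⁻¹ ≤ Real.log N) : |AA z j i v n| ≤ 2 * Real.log N := by
  have hN2 : (2 : ℝ) ≤ N := by exact_mod_cast hN
  have hlog2 : Real.log 2 ≤ Real.log N := Real.log_le_log (by norm_num) hN2
  have hl0 : 0 ≤ Real.log 2 := Real.log_nonneg (by norm_num)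
  have hlN : 0 ≤ Real.log N := hl0.trans hlog2
  have h1 : ArithmeticFunction.vonMangoldt (v + n) ≤ 2 * Real.log N := by
    refine (ArithmeticFunction.vonMangoldt_le_log).trans ?_
    have h2 : ((v + n : ℕ) : ℝ) ≤ 2 * N := by
      have : v + n ≤ 2 * N := by omega
      exact_mod_cast this
    have h3 : Real.log ((v + n : ℕ) : ℝ) ≤ Real.log (2 * N) := Real.log_le_log (by exact_mod_cast (by omega : 0 < v + n)) h2
    rw [Real.log_mul (by norm_num) (by linarith)] at h3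
    linarith
  have h0 : 0 ≤ ArithmeticFunction.vonMangoldt (v + n) := ArithmeticFunction.vonMangoldt_nonneg
  have g0 := lamz_nonneg z (v + n)
  have g1 := (lamz_le z (v + n)).trans hV
  unfold AA
  split_ifs
  · rw [abs_of_nonneg h0]; exact h1
  · rw [abs_le]; constructor <;> linarith
  · rw [abs_of_nonneg g0]; linarith

/-- the second moment -/
lemma second (hSEC : S_SEC) (s N z : ℕ) (hN : 2 ≤ N) (V : Finset ℕ) (hV : ∀ v ∈ V, v < N) (hV0 : 0 < V.card)
    (hVz : (Vz z)⁻¹ ≤ Real.log N) (T : ℝ) (hT : 0 ≤ T)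
    (hlaw : ∀ G : ℕ → ℝ, (∀ n ∈ Icc 1 N, |G n| ≤ 2 * Real.log N) →
      ∑ v ∈ V, |∑ n ∈ Icc 1 N, G n * (ArithmeticFunction.vonMangoldt (n + v) - lamz z (n + v))| ≤
        V.card * (2 * Real.log N * T)) :
    ∑ h ∈ Box s N, ((∑ v ∈ V, ∏ i, ArithmeticFunction.vonMangoldt (v + h i) - ∑ v ∈ V, ∏ i, lamz z (v + h i)) / V.card) ^ 2 ≤
      (s : ℝ) ^ 2 * (((2 * Real.log N) ^ 2 * N) ^ (s - 1) * (2 * Real.log N * T)) := by
  have hN2 : (2 : ℝ) ≤ N := by exact_mod_cast hN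
  have hlN : 0 ≤ Real.log N := Real.log_nonneg (by linarith)
  have hVr : (0 : ℝ) < V.card := by exact_mod_cast hV0
  have hex : ∀ h : Fin s → ℕ, (∑ v ∈ V, ∏ i, ArithmeticFunction.vonMangoldt (v + h i) - ∑ v ∈ V, ∏ i, lamz z (v + h i)) / V.card =
      ∑ j : Fin s, ∑ v ∈ V, (1 / (V.card : ℝ)) * ∏ i, AA z j i v (h i) := by
    intro h
    rw [← sum_sub_distrib, sum_comm, sum_div]
    apply sum_congr rfl
    intro v _
    rw [tele, ← mul_sum, div_eq_mul_one_div, mul_comm]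
    rfl
  have hone : ∀ j : Fin s, ∑ h ∈ Box s N, (∑ v ∈ V, (1 / (V.card : ℝ)) * ∏ i, AA z j i v (h i)) ^ 2 ≤
      ((2 * Real.log N) ^ 2 * N) ^ (s - 1) * (2 * Real.log N * T) := by
    intro j
    apply hSEC s N V (fun _ => 1 / (V.card : ℝ)) (fun i => AA z j i) (2 * Real.log N) (2 * Real.log N * T) j
      (fun _ _ => by positivity)
    · rw [sum_const, nsmul_eq_mul, mul_one_div, div_self hVr.ne']
    · positivity
    · positivity
    · intro i v hv n hn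
      rw [mem_Icc] at hn
      exact AA_le z j i v n N hN (hV v hv) hn.1 hn.2 hVz
    · intro v' hv'
      have hG := hlaw (fun n => AA z j j v' n) (fun n hn => by
        rw [mem_Icc] at hn
        exact AA_le z j j v' n N hN (hV v' hv') hn.1 hn.2 hVz)
      rw [← mul_sum, one_div, inv_mul_le_iff₀ hVr]
      refine le_trans (le_of_eq ?_) hG
      apply sum_congr rfl
      intro v _
      congr 1
      apply sum_congr rfl
      intro n _
      unfold AA
      simp only [lt_irrefl, if_false, if_true]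
      rw [add_comm n v]
      ring
  calc ∑ h ∈ Box s N, ((∑ v ∈ V, ∏ i, ArithmeticFunction.vonMangoldt (v + h i) - ∑ v ∈ V, ∏ i, lamz z (v + h i)) / V.card) ^ 2
      = ∑ h ∈ Box s N, (∑ j : Fin s, ∑ v ∈ V, (1 / (V.card : ℝ)) * ∏ i, AA z j i v (h i)) ^ 2 := by
        apply sum_congr rfl
        intro h _
        rw [hex]
    _ ≤ ∑ h ∈ Box s N, (s : ℝ) * ∑ j : Fin s, (∑ v ∈ V, (1 / (V.card : ℝ)) * ∏ i, AA z j i v (h i)) ^ 2 := by
        apply sum_le_sum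
        intro h _
        have := sq_sum_le_card_mul_sum_sq (s := (univ : Finset (Fin s))) (f := fun j => ∑ v ∈ V, (1 / (V.card : ℝ)) * ∏ i, AA z j i v (h i))
        rw [card_univ, Fintype.card_fin] at this
        exact this
    _ = (s : ℝ) * ∑ j : Fin s, ∑ h ∈ Box s N, (∑ v ∈ V, (1 / (V.card : ℝ)) * ∏ i, AA z j i v (h i)) ^ 2 := by
        rw [← mul_sum, sum_comm]
    _ ≤ (s : ℝ) * ∑ j : Fin s, ((2 * Real.log N) ^ 2 * N) ^ (s - 1) * (2 * Real.log N * T) := by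
        apply mul_le_mul_of_nonneg_left _ (Nat.cast_nonneg _)
        exact sum_le_sum fun j _ => hone j
    _ = _ := by
        rw [sum_const, card_univ, Fintype.card_fin, nsmul_eq_mul]
        ring

/-- the vectors which are not injective -/
lemma noninj (s N : ℕ) : ∃ X ⊆ Box s N, (X.card : ℝ) * N ≤ (s : ℝ) ^ 2 * (N : ℝ) ^ s ∧
    ∀ h ∈ Box s N, h ∉ X → Function.Injective h := by
  classical
  refine ⟨(Box s N).filter (fun h => ¬ Function.Injective h), filter_subset _ _, ?_, ?_⟩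
  · have hsub : (Box s N).filter (fun h => ¬ Function.Injective h) ⊆
        (univ.filter (fun q : Fin s × Fin s => q.1 ≠ q.2)).biUnion (fun q => (Box s N).filter (fun h => h q.1 = h q.2)) := by
      intro h hh
      rw [mem_filter] at hh
      rw [mem_biUnion]
      have h2 := hh.2
      unfold Function.Injective at h2
      push Not at h2
      obtain ⟨i, j, h3, h4⟩ := h2
      exact ⟨(i, j), by simpa using h4, by rw [mem_filter]; exact ⟨hh.1, h3⟩⟩
    have hone : ∀ q ∈ (univ.filter (fun q : Fin s × Fin s => q.1 ≠ q.2)), ((Box s N).filter (fun h => h q.1 = h q.2)).card * N ≤ N ^ s := by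
      intro q hq
      rw [mem_filter] at hq
      have hne := hq.2
      -- injection (h, n) ↦ update h q.1 n
      have hcard : (Box s N).card = N ^ s := by
        unfold Box
        rw [Fintype.card_piFinset]
        simp
      rw [← hcard]
      have e : ((Box s N).filter (fun h => h q.1 = h q.2)).card * N =
          (((Box s N).filter (fun h => h q.1 = h q.2)) ×ˢ Icc 1 N).card := by
        rw [card_product, Nat.card_Icc, Nat.add_sub_cancel]
      rw [e]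
      apply card_le_card_of_injOn (fun x => Function.update x.1 q.1 x.2)
      · intro x hx
        rw [mem_coe, mem_product, mem_filter] at hx
        rw [mem_coe]
        unfold Box at hx ⊢
        rw [Fintype.mem_piFinset] at hx ⊢
        intro i
        beta_reduce
        by_cases hi : i = q.1
        · rw [hi, Function.update_self]; exact hx.2
        · rw [Function.update_of_ne hi]; exact hx.1.1 i
      · intro x hx y hy hxy
        rw [mem_coe, mem_product, mem_filter] at hx hy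
        simp only at hxy
        have h1 : x.2 = y.2 := by
          have := congrFun hxy q.1
          rwa [Function.update_self, Function.update_self] at this
        have h2 : ∀ i, i ≠ q.1 → x.1 i = y.1 i := by
          intro i hi
          have := congrFun hxy i
          rwa [Function.update_of_ne hi, Function.update_of_ne hi] at this
        have h3 : x.1 = y.1 := by
          funext i
          by_cases hi : i = q.1
          · rw [hi, hx.1.2, hy.1.2]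
            exact h2 q.2 (Ne.symm hne)
          · exact h2 i hi
        exact Prod.ext h3 h1
    have h3 : ((Box s N).filter (fun h => ¬ Function.Injective h)).card * N ≤ s ^ 2 * N ^ s := by
      calc ((Box s N).filter (fun h => ¬ Function.Injective h)).card * N
          ≤ ((univ.filter (fun q : Fin s × Fin s => q.1 ≠ q.2)).biUnion (fun q => (Box s N).filter (fun h => h q.1 = h q.2))).card * N :=
            Nat.mul_le_mul_right _ (card_le_card hsub)
        _ ≤ (∑ q ∈ univ.filter (fun q : Fin s × Fin s => q.1 ≠ q.2), ((Box s N).filter (fun h => h q.1 = h q.2)).card) * N :=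
            Nat.mul_le_mul_right _ card_biUnion_le
        _ = ∑ q ∈ univ.filter (fun q : Fin s × Fin s => q.1 ≠ q.2), ((Box s N).filter (fun h => h q.1 = h q.2)).card * N := by
            rw [sum_mul]
        _ ≤ ∑ q ∈ univ.filter (fun q : Fin s × Fin s => q.1 ≠ q.2), N ^ s := sum_le_sum hone
        _ ≤ ∑ q : Fin s × Fin s, N ^ s := sum_le_sum_of_subset (filter_subset _ _)
        _ = s ^ 2 * N ^ s := by
            rw [sum_const, card_univ, Fintype.card_prod, Fintype.card_fin, smul_eq_mul]; ring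
    exact_mod_cast h3
  · intro h hh hX
    by_contra hcon
    exact hX (mem_filter.2 ⟨hh, hcon⟩)

/-- eventually in `N` gives eventually in `L` -/
lemma pow_ge (L : ℕ) : L ≤ 10 ^ (2 * L + 1) := by
  have h1 : L ≤ 2 * L + 1 := by omega
  exact h1.trans (Nat.lt_pow_self (by norm_num)).le

lemma ev_log (K : ℝ) : ∃ L₀ : ℕ, ∀ L : ℕ, L₀ ≤ L → ∀ N : ℕ, N = 10 ^ (2 * L + 1) → K ≤ Real.log N := by
  have hlim : Tendsto (fun N : ℕ => Real.log (N : ℝ)) atTop atTop :=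
    Real.tendsto_log_atTop.comp (tendsto_natCast_atTop_atTop (R := ℝ))
  obtain ⟨N0, h0⟩ := eventually_atTop.1 (hlim.eventually_ge_atTop K)
  refine ⟨N0, fun L hL N hN => h0 N ?_⟩
  rw [hN]
  exact hL.trans (pow_ge L)

lemma ev_pow (U : ℕ) (K : ℝ) : ∃ L₀ : ℕ, ∀ L : ℕ, L₀ ≤ L → ∀ N : ℕ, N = 10 ^ (2 * L + 1) → K * Real.log N ^ U ≤ N := by
  have h1 : (fun x : ℝ => Real.log x ^ U) =o[atTop] (fun x : ℝ => x) := by
    have := isLittleO_log_rpow_rpow_atTop (s := 1) (U : ℝ) (by norm_num)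
    simpa using this
  have h2 := h1.bound (show (0 : ℝ) < 1 / (|K| + 1) by positivity)
  have h3 := (tendsto_natCast_atTop_atTop (R := ℝ)).eventually h2
  obtain ⟨N0, h0⟩ := eventually_atTop.1 h3
  refine ⟨N0 + 1, fun L hL N hN => ?_⟩
  have hNL : L ≤ N := by rw [hN]; exact pow_ge L
  have h4 := h0 N (by omega)
  have hN1 : (1 : ℝ) ≤ N := by exact_mod_cast (by omega : 1 ≤ N)
  have hl : 0 ≤ Real.log N := Real.log_nonneg hN1
  rw [Real.norm_of_nonneg (by positivity), Real.norm_of_nonneg (by linarith), one_div, inv_mul_eq_div,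
    le_div_iff₀ (by positivity)] at h4
  have h5 : K ≤ |K| := le_abs_self K
  have h6 : 0 ≤ Real.log N ^ U := by positivity
  nlinarith

lemma num1 (ℓ n : ℝ) (hℓ : 0 < ℓ) (s A1 A U : ℕ) (hs : 1 ≤ s) (hU : U = 2 * s + 2 * A1 + A + 2) :
    ℓ * (n * ℓ ^ (2 * s - 1) / ℓ ^ U) * (ℓ ^ A1) ^ 2 = n / ℓ ^ (A + 2) := by
  have e3 : ℓ ^ U = ℓ ^ (2 * s - 1) * ℓ * (ℓ ^ A1) ^ 2 * ℓ ^ (A + 2) := by
    rw [hU, ← pow_mul, ← pow_succ, ← pow_add, ← pow_add]
    congr 1
    omega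
  rw [e3]
  have h1 : ℓ ^ (2 * s - 1) ≠ 0 := pow_ne_zero _ hℓ.ne'
  have h2 : ℓ ^ A1 ≠ 0 := pow_ne_zero _ hℓ.ne'
  have h3 : ℓ ^ (A + 2) ≠ 0 := pow_ne_zero _ hℓ.ne'
  have h4 := hℓ.ne'
  generalize ℓ ^ (2 * s - 1) = x at *
  generalize ℓ ^ A1 = y at *
  generalize ℓ ^ (A + 2) = w at *
  field_simp

lemma num2 (ε ε0 c S V W w ℓ : ℝ) (A1 : ℕ) (hA1 : 1 ≤ A1) (hε00 : 0 < ε0) (hε01 : ε0 ≤ 1 / 4) (hε02 : 3 * ε0 ≤ ε) (hc : 0 < c)
    (hSc : c ≤ S) (hV : 0 < V) (hW : 0 ≤ W) (hℓ1 : 1 ≤ ℓ) (hlog : 4 / (ε0 * c) ≤ ℓ) (h3 : |w - S * V| ≤ 3 * (V / ℓ ^ A1))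
    (hcnt : |w - W| ≤ ε0 * W + V / ℓ ^ A1) : |W - S * V| ≤ ε * (S * V) := by
  have hℓ0 : 0 < ℓ := by linarith
  have hS0 : 0 < S := lt_of_lt_of_le hc hSc
  have h5 : 4 * (V / ℓ ^ A1) ≤ ε0 * (S * V) := by
    rw [div_le_iff₀ (by positivity)] at hlog
    have h7 : V / ℓ ^ A1 ≤ V / ℓ := by
      apply div_le_div_of_nonneg_left hV.le hℓ0
      calc ℓ = ℓ ^ 1 := (pow_one _).symm
        _ ≤ ℓ ^ A1 := pow_le_pow_right₀ hℓ1 (by omega)
    have h8 : 4 * (V / ℓ) ≤ ε0 * c * V := by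
      rw [← mul_div_assoc, div_le_iff₀ hℓ0]
      have := mul_le_mul_of_nonneg_right hlog hV.le
      calc 4 * V ≤ ℓ * (ε0 * c) * V := this
        _ = ε0 * c * V * ℓ := by ring
    have h9 : ε0 * c * V ≤ ε0 * (S * V) := by
      rw [mul_assoc]
      gcongr
    linarith
  have h6 : |W - S * V| ≤ ε0 * W + ε0 * (S * V) := by
    have e : W - S * V = -(w - W) + (w - S * V) := by ring
    rw [e]
    refine (abs_add_le _ _).trans ?_
    rw [abs_neg]
    linarith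
  have hSV0 : 0 < S * V := by positivity
  obtain ⟨x, hx⟩ : ∃ x, x = S * V := ⟨_, rfl⟩
  rw [← hx] at h6 hSV0 ⊢
  have h7 : W ≤ 2 * x := by
    have := (abs_le.1 h6).2
    nlinarith
  refine h6.trans ?_
  nlinarith

theorem asm (hSEC : S_SEC) (hLAW : S_LAW) (hMAIN : S_MAIN) (hSNG : S_SNG) (hCNT : S_CNT) (hCARD : S_CARD) : S_FIN := by
  intro D hD s hs A ε hε
  obtain ⟨c, hc, hSNG⟩ := hSNG D hD s
  -- parameters
  obtain ⟨A1, hA1⟩ : ∃ A1, A1 = A + 2 := ⟨_, rfl⟩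
  obtain ⟨U, hU⟩ : ∃ U, U = 2 * s + 2 * A1 + A + 2 := ⟨_, rfl⟩
  obtain ⟨E1, hE1⟩ := hSNG A1
  obtain ⟨B0, hB0⟩ := hLAW D hD U
  obtain ⟨E, hEdef⟩ : ∃ E, E = E1 + B0 + 1 := ⟨_, rfl⟩
  obtain ⟨N1, hN1⟩ := hE1 E (by omega)
  obtain ⟨L2, hL2⟩ := hB0 (E + 1)
  obtain ⟨L3, hL3⟩ := hMAIN D hD s (E + 1) A1
  obtain ⟨ε0, hε0d⟩ : ∃ ε0 : ℝ, ε0 = min (ε / 3) (1 / 4) := ⟨_, rfl⟩
  have hε00 : 0 < ε0 := by rw [hε0d]; exact lt_min (by positivity) (by norm_num)
  have hε01 : ε0 ≤ 1 / 4 := by rw [hε0d]; exact min_le_right _ _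
  have hε02 : 3 * ε0 ≤ ε := by
    have : ε0 ≤ ε / 3 := by rw [hε0d]; exact min_le_left _ _
    linarith
  obtain ⟨L4, hL4⟩ := hCNT D hD s hs ε0 hε00 A1
  obtain ⟨N5, hN5⟩ := Pool.Agent.H373R2.T7.Vz_inv_small (E + 1)
  obtain ⟨L6, hL6⟩ := ev_log (4 * (s : ℝ) ^ 2 * 4 ^ s + 10 + 4 / (ε0 * c))
  obtain ⟨L7, hL7⟩ := ev_pow (A + 1) ((s : ℝ) ^ 2)
  refine ⟨N1 + L2 + L3 + L4 + N5 + L6 + L7 + 1, fun L hL N hN => ?_⟩
  have hLN : L ≤ N := by rw [hN]; exact pow_ge L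
  have hlog := hL6 L (by omega) N hN
  have hs1 : (1 : ℝ) ≤ s := by exact_mod_cast hs
  have q1 : 0 ≤ 4 * (s : ℝ) ^ 2 * 4 ^ s := by positivity
  have q2 : 0 ≤ 4 / (ε0 * c) := by positivity
  obtain ⟨ℓ, hℓ⟩ : ∃ ℓ, ℓ = Real.log (N : ℝ) := ⟨_, rfl⟩
  rw [← hℓ] at hlog
  have hℓ10 : 10 ≤ ℓ := by linarith
  have hℓ0 : 0 < ℓ := by linarith
  have hℓ1 : 1 ≤ ℓ := by linarith
  have hN10 : 10 ≤ N := by
    rw [hN]
    calc 10 = 10 ^ 1 := (pow_one _).symm
      _ ≤ 10 ^ (2 * L + 1) := Nat.pow_le_pow_right (by norm_num) (by omega)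
  have hNr : (0 : ℝ) < N := by exact_mod_cast (by omega : 0 < N)
  -- the level
  obtain ⟨z, hz⟩ : ∃ z, z = ⌈ℓ ^ E⌉₊ := ⟨_, rfl⟩
  have hz1 : ℓ ^ E ≤ z := by rw [hz]; exact Nat.le_ceil _
  have hz2 : (z : ℝ) ≤ ℓ ^ (E + 1) := by
    have q1 : (z : ℝ) < ℓ ^ E + 1 := by rw [hz]; exact Nat.ceil_lt_add_one (by positivity)
    have q2 : 1 ≤ ℓ ^ E := one_le_pow₀ hℓ1
    rw [pow_succ]
    nlinarith
  have hz5 : 5 ≤ z := by
    have h1 : ℓ ≤ ℓ ^ E := by
      calc ℓ = ℓ ^ 1 := (pow_one _).symm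
        _ ≤ ℓ ^ E := pow_le_pow_right₀ hℓ1 (by omega)
    have h2 : (5 : ℝ) ≤ z := by linarith
    exact_mod_cast h2
  have hV : (Vz z)⁻¹ ≤ Real.log N := hN5 N (by omega) z (by omega) (by rw [← hℓ]; exact hz2)
  -- the palindromes
  obtain ⟨hcard, hdig⟩ := hCARD D hD L (by omega)
  have hVpos : 0 < (Pal D L).card := by
    obtain ⟨a, ha, b, hb, hab⟩ := hD.three
    have h1 : 0 < D.card := card_pos.2 ⟨a, ha⟩
    have h2 : 0 < (D.erase 0).card := by
      rw [card_pos]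
      by_cases h0 : a = 0
      · refine ⟨b, mem_erase.2 ⟨fun hb0 => hab ?_, hb⟩⟩
        rw [h0, hb0]
      · exact ⟨a, mem_erase.2 ⟨h0, ha⟩⟩
    rw [hcard]
    positivity
  have hVr : (0 : ℝ) < (Pal D L).card := by exact_mod_cast hVpos
  have hVlt : ∀ v ∈ Pal D L, v < N := by
    intro v hv
    unfold Pal at hv
    rw [mem_filter, mem_range] at hv
    rw [hN]; exact hv.1
  -- the second moment
  have hsec := second hSEC s N z (by omega) (Pal D L) hVlt hVpos hV (N / ℓ ^ U) (by positivity) (fun G hG => by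
    have h1 := hL2 L (by omega) N hN z (by rw [← hℓ]; exact (pow_le_pow_right₀ hℓ1 (by omega)).trans hz1)
      (by rw [← hℓ]; exact hz2) (2 * Real.log N) (by rw [← hℓ]; positivity) G hG
    rw [← hℓ] at h1 ⊢
    exact h1)
  rw [← hℓ] at hsec
  classical
  obtain ⟨X1, hX1⟩ : ∃ X1, X1 = (Box s N).filter (fun h => 1 / ℓ ^ A1 < |(∑ v ∈ Pal D L, ∏ i, ArithmeticFunction.vonMangoldt (v + h i) -
    ∑ v ∈ Pal D L, ∏ i, lamz z (v + h i)) / (Pal D L).card|) := ⟨_, rfl⟩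
  have hX1c : (X1.card : ℝ) ≤ (N : ℝ) ^ s / ℓ ^ (A + 2) := by
    have h1 : (X1.card : ℝ) * (1 / ℓ ^ A1) ^ 2 ≤ (s : ℝ) ^ 2 * (((2 * ℓ) ^ 2 * N) ^ (s - 1) * (2 * ℓ * (N / ℓ ^ U))) := by
      refine le_trans ?_ hsec
      rw [← nsmul_eq_mul, ← sum_const]
      have h2 : X1 ⊆ Box s N := by rw [hX1]; exact filter_subset _ _
      refine le_trans (sum_le_sum (fun h hh => ?_)) (sum_le_sum_of_subset_of_nonneg h2 (fun _ _ _ => sq_nonneg _))
      rw [hX1, mem_filter] at hh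
      rw [← sq_abs ((∑ v ∈ Pal D L, ∏ i, ArithmeticFunction.vonMangoldt (v + h i) - ∑ v ∈ Pal D L, ∏ i, lamz z (v + h i)) / (Pal D L).card)]
      exact pow_le_pow_left₀ (by positivity) hh.2.le 2
    obtain ⟨t, ht⟩ : ∃ t, s = t + 1 := ⟨s - 1, by omega⟩
    have h3 : (s : ℝ) ^ 2 * (((2 * ℓ) ^ 2 * N) ^ (s - 1) * (2 * ℓ * (N / ℓ ^ U))) =
        ((s : ℝ) ^ 2 * 4 ^ (s - 1) * 2) * ((N : ℝ) ^ s * ℓ ^ (2 * s - 1) / ℓ ^ U) := by
      have e1 : s - 1 = t := by omega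
      have e2 : 2 * s - 1 = 2 * t + 1 := by omega
      have e3 : ((2 * ℓ) ^ 2 * (N : ℝ)) ^ t = 4 ^ t * ℓ ^ (2 * t) * (N : ℝ) ^ t := by
        have e4 : ((4 : ℝ)) ^ t = 2 ^ (2 * t) := by rw [pow_mul]; norm_num
        rw [mul_pow, ← pow_mul, mul_pow 2 ℓ, e4]
      have e5 : (N : ℝ) ^ s = (N : ℝ) ^ t * N := by rw [ht, pow_succ]
      rw [e1, e2, e3, e5, pow_succ ℓ (2 * t)]
      ring
    have h4 : ((s : ℝ) ^ 2 * 4 ^ (s - 1) * 2) ≤ ℓ := by
      have : (4 : ℝ) ^ (s - 1) * 2 ≤ 4 * 4 ^ s := by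
        have h5 : (4 : ℝ) ^ (s - 1) ≤ 4 ^ s := pow_le_pow_right₀ (by norm_num) (by omega)
        have h6 : (0 : ℝ) ≤ 4 ^ s := by positivity
        linarith
      calc (s : ℝ) ^ 2 * 4 ^ (s - 1) * 2 = (s : ℝ) ^ 2 * (4 ^ (s - 1) * 2) := by ring
        _ ≤ (s : ℝ) ^ 2 * (4 * 4 ^ s) := by gcongr
        _ = 4 * (s : ℝ) ^ 2 * 4 ^ s := by ring
        _ ≤ ℓ := by linarith
    rw [h3, one_div, inv_pow, ← div_eq_mul_inv, div_le_iff₀ (by positivity)] at h1
    refine h1.trans ?_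
    have h5 : ((s : ℝ) ^ 2 * 4 ^ (s - 1) * 2) * ((N : ℝ) ^ s * ℓ ^ (2 * s - 1) / ℓ ^ U) * (ℓ ^ A1) ^ 2 ≤
        ℓ * ((N : ℝ) ^ s * ℓ ^ (2 * s - 1) / ℓ ^ U) * (ℓ ^ A1) ^ 2 := by gcongr
    exact h5.trans (le_of_eq (num1 ℓ ((N : ℝ) ^ s) hℓ0 s A1 A U hs hU))
  obtain ⟨X2, hX2s, hX2c, hX2⟩ := hL4 L (by omega) N hN
  obtain ⟨X3, hX3s, hX3c, hX3⟩ := noninj s N
  have hX3c' : (X3.card : ℝ) ≤ (N : ℝ) ^ s / ℓ ^ (A + 1) := by
    have h1 := hL7 L (by omega) N hN
    rw [← hℓ] at h1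
    rw [le_div_iff₀ (by positivity)]
    have h2 : (X3.card : ℝ) * ℓ ^ (A + 1) * N ≤ (N : ℝ) ^ s * N := by
      calc (X3.card : ℝ) * ℓ ^ (A + 1) * N = ((X3.card : ℝ) * N) * ℓ ^ (A + 1) := by ring
        _ ≤ ((s : ℝ) ^ 2 * (N : ℝ) ^ s) * ℓ ^ (A + 1) := by gcongr
        _ = (N : ℝ) ^ s * ((s : ℝ) ^ 2 * ℓ ^ (A + 1)) := by ring
        _ ≤ (N : ℝ) ^ s * N := by gcongr
    exact le_of_mul_le_mul_right h2 hNr
  rw [← hℓ] at hX2c
  refine ⟨X1 ∪ X2 ∪ X3, ?_, ?_, ?_⟩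
  · refine union_subset (union_subset ?_ hX2s) hX3s
    rw [hX1]; exact filter_subset _ _
  · rw [← hℓ]
    have h1 : ((X1 ∪ X2 ∪ X3).card : ℝ) ≤ X1.card + X2.card + X3.card := by
      have h2 := card_union_le (X1 ∪ X2) X3
      have h3 := card_union_le X1 X2
      exact_mod_cast (by omega : (X1 ∪ X2 ∪ X3).card ≤ X1.card + X2.card + X3.card)
    have hNs : (0 : ℝ) < (N : ℝ) ^ s := by positivity
    have h4 : (N : ℝ) ^ s / ℓ ^ (A + 2) ≤ (N : ℝ) ^ s / ℓ ^ (A + 1) := by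
      apply div_le_div_of_nonneg_left hNs.le (by positivity)
      exact pow_le_pow_right₀ hℓ1 (by omega)
    rw [hA1] at hX2c
    calc ((X1 ∪ X2 ∪ X3).card : ℝ) ≤ 3 * ((N : ℝ) ^ s / ℓ ^ (A + 1)) := by linarith
      _ = (3 / ℓ) * ((N : ℝ) ^ s / ℓ ^ A) := by rw [pow_succ]; field_simp
      _ ≤ 1 * ((N : ℝ) ^ s / ℓ ^ A) := by
          apply mul_le_mul_of_nonneg_right _ (by positivity)
          rw [div_le_one hℓ0]; linarith
      _ = _ := one_mul _
  · intro h hh hX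
    rw [mem_union, mem_union, not_or, not_or] at hX
    obtain ⟨⟨hx1, hx2⟩, hx3⟩ := hX
    have hinj := hX3 h hh hx3
    have hle : ∀ i, h i ≤ N := by
      intro i
      unfold Box at hh
      rw [Fintype.mem_piFinset] at hh
      exact (mem_Icc.1 (hh i)).2
    obtain ⟨S, hS, hSz, hSc⟩ := hN1 N (by omega) z (by rw [← hℓ]; exact hz1) (by rw [← hℓ]; exact hz2) h hle hinj
    have hmain := hL3 L (by omega) N hN z hz5 (by rw [← hℓ]; exact hz2) h
    have hcnt := hX2 h hh hx2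
    have h1 : |wcnt D L h - ∑ v ∈ Pal D L, ∏ i, lamz z (v + h i)| ≤ (Pal D L).card / ℓ ^ A1 := by
      have h2 : ¬ (1 / ℓ ^ A1 < |(∑ v ∈ Pal D L, ∏ i, ArithmeticFunction.vonMangoldt (v + h i) -
          ∑ v ∈ Pal D L, ∏ i, lamz z (v + h i)) / (Pal D L).card|) := by
        intro h3
        apply hx1
        rw [hX1, mem_filter]
        exact ⟨hh, h3⟩
      rw [not_lt, abs_div, abs_of_pos hVr, div_le_iff₀ hVr] at h2
      refine h2.trans (le_of_eq ?_)
      ring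
    rw [← hℓ] at hmain hSz hcnt ⊢
    have hSV : |sing D h z * (Pal D L).card - S * (Pal D L).card| ≤ (Pal D L).card / ℓ ^ A1 := by
      rw [← sub_mul, abs_mul, abs_of_pos hVr, abs_sub_comm]
      calc |S - sing D h z| * (Pal D L).card ≤ 1 / ℓ ^ A1 * (Pal D L).card := by gcongr
        _ = _ := by ring
    have h3 : |wcnt D L h - S * (Pal D L).card| ≤ 3 * ((Pal D L).card / ℓ ^ A1) := by
      have e : wcnt D L h - S * (Pal D L).card = (wcnt D L h - ∑ v ∈ Pal D L, ∏ i, lamz z (v + h i)) +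
          (∑ v ∈ Pal D L, ∏ i, lamz z (v + h i) - (Pal D L).card * sing D h z) +
          (sing D h z * (Pal D L).card - S * (Pal D L).card) := by ring
      rw [e]
      refine (abs_add_le _ _).trans ?_
      have := abs_add_le (wcnt D L h - ∑ v ∈ Pal D L, ∏ i, lamz z (v + h i))
        (∑ v ∈ Pal D L, ∏ i, lamz z (v + h i) - (Pal D L).card * sing D h z)
      linarith
    have hA1' : ((Pal D L).card : ℝ) / ℓ ^ A1 = (1 / ℓ ^ 2) * ((Pal D L).card / ℓ ^ A) := by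
      rw [hA1, pow_add]; field_simp
    have h4ℓ : 4 * (1 / ℓ ^ 2) ≤ 1 := by
      rw [mul_one_div, div_le_one (by positivity)]; nlinarith
    refine ⟨S, hS, ?_, fun hadm => ?_⟩
    · refine h3.trans ?_
      rw [hA1']
      have : 0 ≤ ((Pal D L).card : ℝ) / ℓ ^ A := by positivity
      nlinarith
    · have hSc' := hSc hadm
      have hS0 : 0 < S := lt_of_lt_of_le hc hSc'
      refine ⟨hS0, ?_⟩
      obtain ⟨W, hW⟩ : ∃ W, W = (cnt D L h : ℝ) * ℓ ^ s := ⟨_, rfl⟩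
      obtain ⟨V, hVd⟩ : ∃ V : ℝ, V = (Pal D L).card := ⟨_, rfl⟩
      rw [← hW, ← hVd] at hcnt
      rw [← hVd] at h3 hA1' hVr ⊢
      have hW0 : 0 ≤ W := by rw [hW]; positivity
      have h8 : |W - S * V| ≤ ε * (S * V) := num2 ε ε0 c S V W (wcnt D L h) ℓ A1 (by omega) hε00 hε01 hε02 hc hSc' hVr hW0 hℓ1
        (by linarith) h3 hcnt
      have e : (cnt D L h : ℝ) - S * (V / ℓ ^ s) = (W - S * V) / ℓ ^ s := by
        rw [hW]; field_simp
      rw [e, abs_div, abs_of_pos (show (0 : ℝ) < ℓ ^ s by positivity), div_le_iff₀ (by positivity)]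
      refine h8.trans (le_of_eq ?_)
      field_simp

end Pool.Agent.P8H18.PS
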