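import Mathlib

set_option autoImplicit false

/-!
# Project PS (hard row MP_540de1_nt): the formula of Hardy and Littlewood for palindromes, on average over the shifts

Final theorem (`S_FIN` below): let `D` be a set of decimal digits whose differences are not all divisible by `3` and not all
divisible by `7` (for instance all digits, or `{1, 3}`). For every `s` and `A`, all large `L` and `N = 10 ^ (2 L + 1)`, for all
but `N ^ s / (log N) ^ A` of the vectors `h` of shifts in `[1, N] ^ s`, the number of the palindromes `v` with `2 L + 1` digits,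
all in `D`, for which all `v + h i` are prime has the expected size, with an explicit singular series.

Packages: `DEC`, `SEC` (Mathlib only), `LAW`, `MAIN`, `SNG`, `CNT`. Assembly by helper18.
-/

namespace Pool.Agent.P8H18.PS

open Finset Filter

/-- the palindromes with exactly `2 L + 1` decimal digits, all in `D` -/
def Pal (D : Finset ℕ) (L : ℕ) : Finset ℕ :=
  (range (10 ^ (2 * L + 1))).filter fun v => 10 ^ (2 * L) ≤ v ∧ (Nat.digits 10 v).reverse = Nat.digits 10 v ∧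
    ∀ a ∈ Nat.digits 10 v, a ∈ D

/-- the sets of digits: not all differences are divisible by `3`, and not all by `7` -/
structure DigitSet (D : Finset ℕ) : Prop where
  lt : ∀ a ∈ D, a < 10
  three : ∃ a ∈ D, ∃ b ∈ D, ¬ a ≡ b [MOD 3]
  seven : ∃ a ∈ D, ∃ b ∈ D, ¬ a ≡ b [MOD 7]

/-- the number of the residues `r < p` with `p ∣ r + h i` for some `i` -/
def nu {s : ℕ} (h : Fin s → ℕ) (p : ℕ) : ℕ := ((range p).filter fun r => ∃ i, p ∣ r + h i).card

/-- the primes up to `z` other than `2` and `5` -/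
def PP (z : ℕ) : Finset ℕ := (Icc 1 z).filter fun p => p.Prime ∧ p ≠ 2 ∧ p ≠ 5

/-- the local factor at `2` and `5`: the last digit of `v` is its first digit, which is uniformly distributed on `D \ {0}` -/
noncomputable def d10 {s : ℕ} (D : Finset ℕ) (h : Fin s → ℕ) : ℝ :=
  (((D.erase 0).filter fun a => ∀ i, (a + h i).Coprime 10).card : ℝ) / (D.erase 0).card / (2 / 5) ^ s

/-- the partial product over the primes `p ≤ z` of the singular series -/
noncomputable def sing {s : ℕ} (D : Finset ℕ) (h : Fin s → ℕ) (z : ℕ) : ℝ :=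
  d10 D h * ∏ p ∈ PP z, (1 - (nu h p : ℝ) / p) / (1 - 1 / (p : ℝ)) ^ s

/-- admissible vectors of shifts -/
def Adm {s : ℕ} (D : Finset ℕ) (h : Fin s → ℕ) : Prop :=
  (∃ a ∈ D, a ≠ 0 ∧ ∀ i, (a + h i).Coprime 10) ∧ ∀ p : ℕ, p.Prime → p ≠ 2 → p ≠ 5 → ∃ r : ℕ, ∀ i, ¬ p ∣ r + h i

/-- the primes up to `z` (`Pool.Agent.H373R2.T7.pz`) -/
def pz (z : ℕ) : Finset ℕ := (Icc 1 z).filter Nat.Prime

/-- the product of `1 - 1 / p` over the primes `p ≤ z` (`Pool.Agent.H373R2.T7.Vz`) -/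
noncomputable def Vz (z : ℕ) : ℝ := ∏ p ∈ pz z, (1 - 1 / (p : ℝ))

/-- the sieve model for the von Mangoldt function (`Pool.Agent.H373R2.T7.lamz`) -/
noncomputable def lamz (z n : ℕ) : ℝ := if ∀ p ∈ pz z, ¬ p ∣ n then (Vz z)⁻¹ else 0

/-- the number of the palindromes for which all shifts are prime -/
def cnt {s : ℕ} (D : Finset ℕ) (L : ℕ) (h : Fin s → ℕ) : ℕ := ((Pal D L).filter fun v => ∀ i, (v + h i).Prime).card

/-- the weighted number -/
noncomputable def wcnt {s : ℕ} (D : Finset ℕ) (L : ℕ) (h : Fin s → ℕ) : ℝ :=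
  ∑ v ∈ Pal D L, ∏ i, ArithmeticFunction.vonMangoldt (v + h i)

/-- the vectors of shifts -/
def Box (s N : ℕ) : Finset (Fin s → ℕ) := Fintype.piFinset fun _ => Icc 1 N

/-- **DEC** (200 lines, Mathlib only): distribution of the palindromes in residue classes to moduli prime to `10`.

Proof. The palindromes with `2 L + 1` digits in `D` and with the first (and last) digit `a` are exactly the numbers
`v = a (10 ^ (2 L) + 1) + ∑_{1 ≤ i < L} x_i (10 ^ i + 10 ^ (2 L - i)) + x_L 10 ^ L`, `x ∈ D ^ L`, each of them once (please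
also deliver this as a lemma `param`, and its consequence `S_CARD`). Detect the congruence by the additive characters mod `d`:
the number of the `v ≡ r` is `|D| ^ L / d` plus `(1 / d) ∑_{0 < t < d}` of terms of absolute value at most
`|D| ^ L * ∏_{1 ≤ i < L} |ψ(θ (10 ^ i + 10 ^ (2 L - i)))|`, `θ = t / d`, `ψ(x) = (1 / |D|) ∑_{a ∈ D} e(a x)`, `e(x) = exp(2 π i x)`.
Let `q > 1` be the denominator of `t / d` in lowest terms, `s_i = θ (10 ^ i + 10 ^ (2 L - i))` and `w = Nat.log 10 d + 3`.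
CLAIM: there are two digits of `D`, with difference `δ > 0`, depending on `q` only, such that among any `w` consecutive
`i` there is one with `‖δ s_i‖ ≥ 1 / 220` (distance to the integers); for this `i` one has `|ψ(s_i)| ≤ 1 - c` with an absolute
`c > 0` (`|e(a x) + e(b x)| = 2 |cos(π (a - b) x)|`, compare `Pool.Agent.W93.RD.cos_dist`). The intervals
`[1 + j w, 1 + (j + 1) w)`, `j < (L - 1) / w`, give the theorem.
Case 1: some difference `δ` has `q ∤ 99 δ`. If `‖δ s_i‖, ‖δ s_(i+1)‖ < 1 / 220` then, as `10 δ s_i - δ s_(i+1) =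
99 δ θ 10 ^ (2 L - i - 1)`, the number `99 δ θ 10 ^ (2 L - i - 1)` has distance `< 1 / 20` to the integers. If this holds for
`w - 1 = Nat.log 10 d + 2` consecutive `i`, let `x` be the one of these numbers with the smallest exponent of `10`; it is not an
integer (`q` is prime to `10`), so `‖x‖ ≥ 1 / d`, and `‖10 y‖ = 10 ‖y‖` for `‖y‖ < 1 / 20` gives
`‖10 ^ (w - 2) x‖ ≥ 10 ^ (w - 2) / d > 1`, a contradiction (`w - 2 = Nat.log 10 d + 1`).
Case 2: `q ∣ 99 δ` for all differences `δ`. The greatest common divisor `g` of the differences is at most `9` and not divisible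
by `3` or `7`, so it is prime to `99`, its prime factors are `2` and `5`, and `q`, which is prime to `10`, divides `99`. So
`10 ^ 2 ≡ 1 (mod q)` and `s_i` is `2 t 10 ^ i / d` up to integers. Let `δ` be a difference which is not divisible by `3`
(and `δ ≤ 9`, so not divisible by `11`): `q ∤ 2 δ`, so `δ s_i` is not an integer and `‖δ s_i‖ ≥ 1 / 99`, for every `i`. -/
def S_DEC : Prop := ∀ D : Finset ℕ, DigitSet D → ∃ c : ℝ, 0 < c ∧ c < 1 ∧ ∀ L d : ℕ, 1 ≤ L → d.Coprime 10 →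
  ∀ a ∈ D.erase 0, ∀ r : ℕ,
    |(((Pal D L).filter fun v => v % 10 = a ∧ v ≡ r [MOD d]).card : ℝ) - (D.card : ℝ) ^ L / d| ≤
      (D.card : ℝ) ^ L * (1 - c) ^ ((L - 1) / (Nat.log 10 d + 3))

/-- part of the package DEC -/
def S_CARD : Prop := ∀ D : Finset ℕ, DigitSet D → ∀ L : ℕ, 1 ≤ L → (Pal D L).card = (D.erase 0).card * D.card ^ L ∧
  ∀ v ∈ Pal D L, v % 10 ∈ D.erase 0

/-- **SEC** (80 lines, Mathlib only): the second moment of a product over independent shifts.

Proof. The left side is `∑_{v, v'} p v p v' ∏_i (∑_n A i v n * A i v' n)` (`Finset.prod_univ_sum`); estimate the factors with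
`i ≠ j` by `K ^ 2 N`, sum the factor `i = j` over `v` for fixed `v'`, and then over `v'`. -/
def S_SEC : Prop := ∀ (s N : ℕ) (V : Finset ℕ) (p : ℕ → ℝ) (A : Fin s → ℕ → ℕ → ℝ) (K ε : ℝ) (j : Fin s),
  (∀ v ∈ V, 0 ≤ p v) → ∑ v ∈ V, p v ≤ 1 → 0 ≤ K → 0 ≤ ε →
  (∀ i, ∀ v ∈ V, ∀ n ∈ Icc 1 N, |A i v n| ≤ K) →
  (∀ v' ∈ V, ∑ v ∈ V, p v * |∑ n ∈ Icc 1 N, A j v n * A j v' n| ≤ ε) →
  ∑ h ∈ Box s N, (∑ v ∈ V, p v * ∏ i, A i v (h i)) ^ 2 ≤ (K ^ 2 * N) ^ (s - 1) * ε

/-- **LAW** (120 lines; imports `Pool.Agent.N469.PT.Pal`): the one shift estimate of the library for our palindromes.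

Proof. `Pool.Agent.N469.PT.mirror_one 10 1 _ η hη 1 le_rfl 0 U` with `η = 1 / 100` (two independent equal pairs `(a, a)`,
uniform on `D`, differ in both places with probability `1 - 1 / |D| ≥ 1 / 2`), `cc = 0`, for the law `weight 10 (2 L + 1) w u`
with `w i (a, a) = 1 / |X_i|` for `a ∈ X_i`, `X_0 = D \ {0}`, `X_i = D` for `i ≥ 1`, zero otherwise, and `u = 1 / |D|` on `D`. As
in `weight_pal` (`N469/PT/Pal.lean`, the case of all digits) the law is uniform on `Pal D L`
(`Nat.digits` against `v / 10 ^ j % 10`: `Nat.getD_digits` or `Nat.digits_getD`, `List.ext_getElem`). `lamI` and `lamzI` at the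
positive integer `n + v` are `vonMangoldt (n + v)` and `lamz z (n + v)` (the latter by `rfl` up to the definition of `pz`). -/
def S_LAW : Prop := ∀ D : Finset ℕ, DigitSet D → ∀ U : ℕ, ∃ B0 : ℕ, ∀ E : ℕ, ∃ L₀ : ℕ, ∀ L : ℕ, L₀ ≤ L → ∀ N : ℕ,
  N = 10 ^ (2 * L + 1) → ∀ z : ℕ, Real.log N ^ B0 ≤ z → (z : ℝ) ≤ Real.log N ^ E → ∀ Kc : ℝ, 0 < Kc →
  ∀ G : ℕ → ℝ, (∀ n ∈ Icc 1 N, |G n| ≤ Kc) →
    ∑ v ∈ Pal D L, |∑ n ∈ Icc 1 N, G n * (ArithmeticFunction.vonMangoldt (n + v) - lamz z (n + v))| ≤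
      (Pal D L).card * (Kc * (N / Real.log N ^ U))

/-- **MAIN** (180 lines; imports `Pool.Agent.H373R2.T7.LamZ2`, `Crt`; may assume `S_DEC` and `S_CARD`): the main term.

Proof. The sum is `(Vz z)⁻¹ ^ s` times the number of the `v ∈ Pal D L` such that no prime `p ≤ z` divides any `v + h i`. For
`p = 2, 5` this is the condition `(a + h i).Coprime 10` on `a = v % 10`. For each of these `a` apply the sieve
`Pool.Agent.H373R2.T7.sieve_gen` to the `v` with `v % 10 = a` (weights `1`, `X = |D| ^ L`, `T = PP z`, `E p v = (∃ i, p ∣ v + h i)`,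
`g p = nu h p / p`, truncation `r` from `Pool.Agent.H373R2.T7.choice`): for `S ⊆ PP z` with at most `r` elements, `d = ∏ S`,
the condition `∀ p ∈ S, E p v` says that `v` mod `d` lies in `∏_{p ∈ S} nu h p ≤ s ^ r` classes (`crt_card`), so by `S_DEC` the
remainder is at most `s ^ r |D| ^ L (1 - c) ^ ((L - 1) / (Nat.log 10 d + 3))`, `d ≤ (z + 1) ^ r = exp(O((log log N) ^ 2))`. The
truncation error is estimated by `es_le`, `sum_pz_le` and `choice`. Finally `(Vz z)⁻¹ ≤ log N` (`Vz_inv_small`) and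
`Vz z = (2 / 5) * ∏_{PP z} (1 - 1 / p)`. -/
def S_MAIN : Prop := ∀ D : Finset ℕ, DigitSet D → ∀ s E U : ℕ, ∃ L₀ : ℕ, ∀ L : ℕ, L₀ ≤ L → ∀ N : ℕ, N = 10 ^ (2 * L + 1) →
  ∀ z : ℕ, 5 ≤ z → (z : ℝ) ≤ Real.log N ^ E → ∀ h : Fin s → ℕ,
    |∑ v ∈ Pal D L, ∏ i, lamz z (v + h i) - (Pal D L).card * sing D h z| ≤ (Pal D L).card / Real.log N ^ U

/-- **SNG** (150 lines; imports `Pool.Agent.H373R2.T7.SingLim`): the singular series.

Proof. For `s = 0` everything is `1`. Let `s = k + 1`, `a i = h (i + 1) - h 0` (`Fin k → ℤ`); these are different and not `0`, and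
for every prime `p` the factor at `p` is `Pool.Agent.H373R2.T7.Fp a p` (translate the residues by `h 0`). So
`Fp_bounds`, `card_badP`, `Kc` and the proofs of `tail_bound`, `step_bound`, `sing_limit` give the convergence and the rate
`|S - sing D h z| ≤ sing D h z * (Kc a / z)` (the factors at `p > z ≥ 5` are the same in both products), and
`Kc a ≤ (log N) ^ 2`, `sing D h z ≤ 3 ^ s (Vz z)⁻¹ ^ s ≤ (3 log N) ^ s` (`Vz_inv_small`) for large `N`, as in
`Pool.Agent.W93.TD.det2`. Lower bound: `local_low` for the `p ≥ 3`, `p ≠ 5`, and `d10 D h ≥ 1 / 9` if `h` is admissible. -/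
def S_SNG : Prop := ∀ D : Finset ℕ, DigitSet D → ∀ s : ℕ, ∃ c : ℝ, 0 < c ∧ ∀ U : ℕ, ∃ E1 : ℕ, ∀ E : ℕ, E1 ≤ E →
  ∃ N₀ : ℕ, ∀ N : ℕ, N₀ ≤ N → ∀ z : ℕ, Real.log N ^ E ≤ z → (z : ℝ) ≤ Real.log N ^ (E + 1) →
  ∀ h : Fin s → ℕ, (∀ i, h i ≤ N) → Function.Injective h →
    ∃ S : ℝ, Tendsto (sing D h) atTop (nhds S) ∧ |S - sing D h z| ≤ 1 / Real.log N ^ U ∧ (Adm D h → c ≤ S)

/-- **CNT** (150 lines, Mathlib only; may assume `S_CARD` for the positivity of the number of palindromes): from the weighted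
to the unweighted number.

Proof. For `v ∈ Pal D L` and `1 ≤ h i ≤ N` one has `N / 10 ≤ v + h i ≤ 2 N`, so the terms with all `v + h i` prime contribute
between `cnt * (log N - log 10) ^ s` and `cnt * (log N + log 2) ^ s`, and this is `cnt * (log N) ^ s` up to a factor between `1 - ε`
and `1 + ε`. The other nonzero terms have a proper prime power `v + h i`; each of them is at most `(log (2 N)) ^ s`. Let `X` be
the set of the `h` for which more than `|Pal D L| / (2 log N) ^ (U + s)` palindromes `v` have some proper prime power `v + h i`.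
There are at most `√(2 N) (log_2 (2 N) + 1)` proper prime powers up to `2 N`, so the number of the pairs `(v, h)` with this
property is at most `s |Pal D L| √(2 N) (log_2 (2 N) + 1) N ^ (s - 1)`, and `|X| ≤ N ^ s / (log N) ^ U` follows. -/
def S_CNT : Prop := ∀ D : Finset ℕ, DigitSet D → ∀ s : ℕ, 1 ≤ s → ∀ ε : ℝ, 0 < ε → ∀ U : ℕ, ∃ L₀ : ℕ, ∀ L : ℕ, L₀ ≤ L →
  ∀ N : ℕ, N = 10 ^ (2 * L + 1) → ∃ X ⊆ Box s N, (X.card : ℝ) ≤ (N : ℝ) ^ s / Real.log N ^ U ∧
    ∀ h ∈ Box s N, h ∉ X →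
      |wcnt D L h - cnt D L h * Real.log N ^ s| ≤ ε * (cnt D L h * Real.log N ^ s) + (Pal D L).card / Real.log N ^ U

/-- The final theorem. -/
def S_FIN : Prop := ∀ D : Finset ℕ, DigitSet D → ∀ s : ℕ, 1 ≤ s → ∀ (A : ℕ) (ε : ℝ), 0 < ε → ∃ L₀ : ℕ, ∀ L : ℕ, L₀ ≤ L →
  ∀ N : ℕ, N = 10 ^ (2 * L + 1) → ∃ X ⊆ Box s N, (X.card : ℝ) ≤ (N : ℝ) ^ s / Real.log N ^ A ∧
    ∀ h ∈ Box s N, h ∉ X → ∃ S : ℝ, Tendsto (sing D h) atTop (nhds S) ∧
      |wcnt D L h - S * (Pal D L).card| ≤ (Pal D L).card / Real.log N ^ A ∧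
      (Adm D h → 0 < S ∧ |(cnt D L h : ℝ) - S * ((Pal D L).card / Real.log N ^ s)| ≤
        ε * (S * ((Pal D L).card / Real.log N ^ s)))

end Pool.Agent.P8H18.PS
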